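import Pool.Agent.Helper17.Rg.Goals

/-! # Project RG (MP_70814c_an), packet E2 (helper79) -/

set_option autoImplicit false

namespace Pool.Agent.Helper79.Rg

open Pool.Agent.Helper17.Rg

lemma gb_pos (b : Bool) : (0 : ℝ) < (gb b : ℝ) := by
  cases b <;> simp [gb]

lemma gbq_pos (b : Bool) : (0 : ℚ) < (gb b : ℚ) := by
  cases b <;> simp [gb]

/-- the whole sum is the sum of the two parts -/
lemma sum_split {r : ℕ} (c : Fin r → ℝ) (g : Fin r → Bool) (l : Fin r → ℕ) :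
    ∑ t, c t / (gb (g t) : ℝ) ^ l t = pt2 c g l + pt3 c g l := by
  unfold pt2 pt3
  rw [← Finset.sum_add_distrib]
  refine Finset.sum_congr rfl fun t _ => ?_
  cases h : g t <;> simp [gb]

lemma pt2_succAbove {r : ℕ} (c : Fin (r + 1) → ℝ) (g : Fin (r + 1) → Bool)
    (l : Fin (r + 1) → ℕ) (t0 : Fin (r + 1)) :
    pt2 c g l = (if g t0 then 0 else c t0 / 2 ^ l t0) +
      pt2 (fun j => c (t0.succAbove j)) (fun j => g (t0.succAbove j))
        (fun j => l (t0.succAbove j)) := by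
  unfold pt2
  rw [Fin.sum_univ_succAbove _ t0]

/-- one relation -/
lemma caseB {r : ℕ} (hv : Van)
    (ih : ∀ (c : Fin r → ℚ) (g : Fin r → Bool) (H : ℕ) (C1 C2 K : ℝ), C2 < C1 →
      ∃ (N0 : ℕ) (K' : ℝ), ∀ N : ℕ, N0 ≤ N → ∀ l : Fin r → ℕ, (∀ t, N ≤ l t ∧ l t ≤ H * N) →
        |∑ t, (c t : ℝ) / (gb (g t) : ℝ) ^ l t| ≤ K * (2 : ℝ) ^ (-C1 * N) →
        |pt2 (fun t => (c t : ℝ)) g l| ≤ K' * (2 : ℝ) ^ (-C2 * N))
    (c : Fin (r + 1) → ℚ) (g : Fin (r + 1) → Bool) (H : ℕ) (C1 C2 K : ℝ) (h12 : C2 < C1)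
    (v : Fin (r + 1) → ℚ) (hne : v ≠ 0) :
    ∃ (N0 : ℕ) (K' : ℝ), ∀ N : ℕ, N0 ≤ N → ∀ l : Fin (r + 1) → ℕ,
      (∀ t, N ≤ l t ∧ l t ≤ H * N) → ∑ t, v t / (gb (g t) : ℚ) ^ l t = 0 →
      |∑ t, (c t : ℝ) / (gb (g t) : ℝ) ^ l t| ≤ K * (2 : ℝ) ^ (-C1 * N) →
      |pt2 (fun t => (c t : ℝ)) g l| ≤ K' * (2 : ℝ) ^ (-C2 * N) := by
  obtain ⟨t0, ht0⟩ : ∃ t0, v t0 ≠ 0 := by
    by_contra hcon
    push Not at hcon
    exact hne (funext hcon)
  obtain ⟨N1, hN1⟩ := hv (r + 1) v g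
  obtain ⟨c', hc'⟩ : ∃ c' : Fin (r + 1) → ℚ, c' = fun t =>
    if g t = g t0 then c t - c t0 / v t0 * v t else c t := ⟨_, rfl⟩
  obtain ⟨N2, K', hN2⟩ := ih (fun j => c' (t0.succAbove j)) (fun j => g (t0.succAbove j)) H C1 C2 K
    h12
  refine ⟨max N1 N2, K', fun N hN l hl hrel hS => ?_⟩
  obtain ⟨r2, r3⟩ := hN1 N (le_trans (le_max_left _ _) hN) l (fun t => (hl t).1) hrel
  have r2' : ∑ t, (if g t then (0 : ℝ) else (v t : ℝ) / 2 ^ l t) = 0 := by
    have h1 : ((∑ t, (if g t then (0 : ℚ) else v t / 2 ^ l t) : ℚ) : ℝ) = 0 := by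
      rw [r2]; simp
    refine Eq.trans ?_ h1
    rw [Rat.cast_sum]
    refine Finset.sum_congr rfl fun t _ => ?_
    split_ifs <;> push_cast <;> rfl
  have r3' : ∑ t, (if g t then (v t : ℝ) / 3 ^ l t else (0 : ℝ)) = 0 := by
    have h1 : ((∑ t, (if g t then v t / 3 ^ l t else (0 : ℚ)) : ℚ) : ℝ) = 0 := by
      rw [r3]; simp
    refine Eq.trans ?_ h1
    rw [Rat.cast_sum]
    refine Finset.sum_congr rfl fun t _ => ?_
    split_ifs <;> push_cast <;> rfl
  have h0 : c' t0 = 0 := by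
    rw [hc']
    simp only [if_true]
    field_simp
    ring
  have e2 : pt2 (fun t => (c' t : ℝ)) g l = pt2 (fun t => (c t : ℝ)) g l := by
    have e : pt2 (fun t => (c' t : ℝ)) g l = pt2 (fun t => (c t : ℝ)) g l -
        (if g t0 then 0 else (c t0 / v t0 : ℝ)) *
          ∑ t, (if g t then (0 : ℝ) else (v t : ℝ) / 2 ^ l t) := by
      unfold pt2
      rw [Finset.mul_sum, ← Finset.sum_sub_distrib]
      refine Finset.sum_congr rfl fun t _ => ?_
      rcases Bool.eq_false_or_eq_true (g t) with h1 | h1 <;>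
        rcases Bool.eq_false_or_eq_true (g t0) with h2 | h2 <;>
        simp [h1, h2, hc'] <;> ring
    rw [e, r2', mul_zero, sub_zero]
  have e3 : pt3 (fun t => (c' t : ℝ)) g l = pt3 (fun t => (c t : ℝ)) g l := by
    have e : pt3 (fun t => (c' t : ℝ)) g l = pt3 (fun t => (c t : ℝ)) g l -
        (if g t0 then (c t0 / v t0 : ℝ) else 0) *
          ∑ t, (if g t then (v t : ℝ) / 3 ^ l t else (0 : ℝ)) := by
      unfold pt3
      rw [Finset.mul_sum, ← Finset.sum_sub_distrib]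
      refine Finset.sum_congr rfl fun t _ => ?_
      rcases Bool.eq_false_or_eq_true (g t) with h1 | h1 <;>
        rcases Bool.eq_false_or_eq_true (g t0) with h2 | h2 <;>
        simp [h1, h2, hc'] <;> ring
    rw [e, r3', mul_zero, sub_zero]
  have es : ∑ j, (c' (t0.succAbove j) : ℝ) / (gb (g (t0.succAbove j)) : ℝ) ^ l (t0.succAbove j) =
      ∑ t, (c t : ℝ) / (gb (g t) : ℝ) ^ l t := by
    have h1 : ∑ t, (c' t : ℝ) / (gb (g t) : ℝ) ^ l t = ∑ t, (c t : ℝ) / (gb (g t) : ℝ) ^ l t := by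
      rw [sum_split, sum_split, e2, e3]
    rw [← h1, Fin.sum_univ_succAbove _ t0, h0]
    simp
  have hfin := hN2 N (le_trans (le_max_right _ _) hN) (fun j => l (t0.succAbove j))
    (fun j => hl _) (by rw [es]; exact hS)
  rw [← e2, pt2_succAbove _ g l t0]
  rw [h0]
  simpa using hfin

lemma key {F : Type*} [Field F] [CharZero F] (p q : Bool) (m n : ℕ) :
    (2 : F) ^ ((if p then (0 : ℤ) else (m : ℤ)) - (if q then (0 : ℤ) else (n : ℤ))) *
      (3 : F) ^ ((if p then (m : ℤ) else (0 : ℤ)) - (if q then (n : ℤ) else (0 : ℤ))) =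
      (gb p : F) ^ m / (gb q : F) ^ n := by
  have h2 : (2 : F) ≠ 0 := two_ne_zero
  have h3 : (3 : F) ≠ 0 := three_ne_zero
  cases p <;> cases q <;> simp [gb, zpow_sub₀ h2, zpow_sub₀ h3, div_eq_mul_inv] <;> ring

lemma relX {r : ℕ} (u : ℚ × (Fin r → ℚ)) (g : Fin (r + 1) → Bool) (l : Fin (r + 1) → ℕ)
    (h : u.1 * ((1 : ℤ) : ℚ) + ∑ i, u.2 i *
      ((2 : ℚ) ^ ((if g 0 then (0 : ℤ) else (l 0 : ℤ)) -
        (if g i.succ then (0 : ℤ) else (l i.succ : ℤ))) *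
      (3 : ℚ) ^ ((if g 0 then (l 0 : ℤ) else (0 : ℤ)) -
        (if g i.succ then (l i.succ : ℤ) else (0 : ℤ)))) = 0) :
    ∑ t, (Fin.cons u.1 u.2 : Fin (r + 1) → ℚ) t / (gb (g t) : ℚ) ^ l t = 0 := by
  have hA : (gb (g 0) : ℚ) ^ l 0 ≠ 0 := pow_ne_zero _ (gbq_pos _).ne'
  rw [Fin.sum_univ_succ]
  simp only [Fin.cons_zero, Fin.cons_succ]
  have e : ∀ i : Fin r, u.2 i *
      ((2 : ℚ) ^ ((if g 0 then (0 : ℤ) else (l 0 : ℤ)) -
        (if g i.succ then (0 : ℤ) else (l i.succ : ℤ))) *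
      (3 : ℚ) ^ ((if g 0 then (l 0 : ℤ) else (0 : ℤ)) -
        (if g i.succ then (l i.succ : ℤ) else (0 : ℤ)))) =
      (gb (g 0) : ℚ) ^ l 0 * (u.2 i / (gb (g i.succ) : ℚ) ^ l i.succ) := by
    intro i
    rw [key]
    ring
  rw [Finset.sum_congr rfl fun i _ => e i, ← Finset.mul_sum] at h
  have h1 : (gb (g 0) : ℚ) ^ l 0 * (u.1 / (gb (g 0) : ℚ) ^ l 0 +
      ∑ i : Fin r, u.2 i / (gb (g i.succ) : ℚ) ^ l i.succ) = 0 := by
    rw [mul_add, mul_div_cancel₀ _ hA]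
    simpa using h
  exact (mul_eq_zero.mp h1).resolve_left hA

lemma cons_ne {r : ℕ} (u : ℚ × (Fin r → ℚ)) (hu : u ≠ 0) :
    (Fin.cons u.1 u.2 : Fin (r + 1) → ℚ) ≠ 0 := by
  intro h
  apply hu
  have h1 : u.1 = 0 := by
    have := congrFun h 0
    simpa using this
  have h2 : u.2 = 0 := by
    funext i
    have := congrFun h i.succ
    simpa using this
  exact Prod.ext h1 h2

theorem twoPart (h : SubQ) (hv : Van) : TwoPart := by
  intro r
  induction r with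
  | zero =>
    intro c g H C1 C2 K h12
    exact ⟨0, 0, fun N _ l _ _ => by simp [pt2]⟩
  | succ r ih =>
    intro c g H C1 C2 K h12
    obtain ⟨C3, hC3⟩ : ∃ C3 : ℝ, C3 = (C1 + C2) / 2 := ⟨_, rfl⟩
    obtain ⟨δ, hδ⟩ : ∃ δ : ℝ, δ = (C1 - C3) / 2 := ⟨_, rfl⟩
    have hδ0 : 0 < δ := by rw [hδ, hC3]; linarith
    have h31 : C3 < C1 := by rw [hC3]; linarith
    have h23 : C2 < C3 := by rw [hC3]; linarith
    have hA := fun t0 : Fin (r + 1) => ih (fun j => c (t0.succAbove j))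
      (fun j => g (t0.succAbove j)) H C3 C2 (|K| + 1) h23
    choose NA KA hNA using hA
    have hB := fun (u : ℚ × (Fin r → ℚ)) (hu : u ≠ 0) =>
      caseB hv ih c g H C1 C2 K h12 (Fin.cons u.1 u.2) (cons_ne u hu)
    choose! NB KB hNB using hB
    obtain ⟨NS, F, hF0, hF⟩ := h r (fun j => -c j.succ / c 0) (2 * H) δ hδ0
    obtain ⟨NK, hNK⟩ : ∃ NK : ℕ, ∀ N : ℕ, NK ≤ N → |K| ≤ (2 : ℝ) ^ (δ * N) := by
      have h1 : (1 : ℝ) < 2 ^ δ := Real.one_lt_rpow (by norm_num) hδ0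
      obtain ⟨n, hn⟩ := pow_unbounded_of_one_lt |K| h1
      refine ⟨n, fun N hN => hn.le.trans ?_⟩
      rw [Real.rpow_mul (by norm_num), Real.rpow_natCast]
      exact pow_le_pow_right₀ h1.le hN
    refine ⟨NS + NK + F.sup NB + Finset.univ.sup NA,
      (∑ u ∈ F, |KB u|) + ∑ t0, (|KA t0| + 1), fun N hN l hl hS => ?_⟩
    have hp2 : (0 : ℝ) < (2 : ℝ) ^ (-C2 * N) := Real.rpow_pos_of_pos (by norm_num) _
    have hp3 : (0 : ℝ) < (2 : ℝ) ^ (-C3 * N) := Real.rpow_pos_of_pos (by norm_num) _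
    have hp1 : (0 : ℝ) < (2 : ℝ) ^ (-C1 * N) := Real.rpow_pos_of_pos (by norm_num) _
    have hNr : (0 : ℝ) ≤ N := Nat.cast_nonneg N
    have h13 : (2 : ℝ) ^ (-C1 * N) ≤ (2 : ℝ) ^ (-C3 * N) :=
      Real.rpow_le_rpow_of_exponent_le (by norm_num) (by nlinarith)
    have h32 : (2 : ℝ) ^ (-C3 * N) ≤ (2 : ℝ) ^ (-C2 * N) :=
      Real.rpow_le_rpow_of_exponent_le (by norm_num) (by nlinarith)
    have hS' : |∑ t, (c t : ℝ) / (gb (g t) : ℝ) ^ l t| ≤ |K| * (2 : ℝ) ^ (-C1 * N) :=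
      hS.trans (mul_le_mul_of_nonneg_right (le_abs_self K) hp1.le)
    have hs1 : (0 : ℝ) ≤ ∑ u ∈ F, |KB u| := Finset.sum_nonneg fun u _ => abs_nonneg _
    have hs2 : (0 : ℝ) ≤ ∑ t0, (|KA t0| + 1) :=
      Finset.sum_nonneg fun t _ => by positivity
    by_cases hcase : ∃ t0, |(c t0 : ℝ)| / (gb (g t0) : ℝ) ^ l t0 ≤ (2 : ℝ) ^ (-C3 * N)
    · obtain ⟨t0, ht0⟩ := hcase
      have hterm : |(c t0 : ℝ) / (gb (g t0) : ℝ) ^ l t0| ≤ (2 : ℝ) ^ (-C3 * N) := by
        rw [abs_div, abs_of_pos (pow_pos (gb_pos (g t0)) (l t0))]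
        exact ht0
      have hsum := Fin.sum_univ_succAbove (fun t => (c t : ℝ) / (gb (g t) : ℝ) ^ l t) t0
      have hrest : |∑ j, (c (t0.succAbove j) : ℝ) /
          (gb (g (t0.succAbove j)) : ℝ) ^ l (t0.succAbove j)| ≤
          (|K| + 1) * (2 : ℝ) ^ (-C3 * N) := by
        have e1 : ∑ j, (c (t0.succAbove j) : ℝ) /
            (gb (g (t0.succAbove j)) : ℝ) ^ l (t0.succAbove j) =
            ∑ t, (c t : ℝ) / (gb (g t) : ℝ) ^ l t - (c t0 : ℝ) / (gb (g t0) : ℝ) ^ l t0 := by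
          rw [hsum]; ring
        rw [e1]
        have h1 := abs_sub (∑ t, (c t : ℝ) / (gb (g t) : ℝ) ^ l t)
          ((c t0 : ℝ) / (gb (g t0) : ℝ) ^ l t0)
        have h2 : |K| * (2 : ℝ) ^ (-C1 * N) ≤ |K| * (2 : ℝ) ^ (-C3 * N) :=
          mul_le_mul_of_nonneg_left h13 (abs_nonneg _)
        linarith
      have hle : NA t0 ≤ N := by
        have := Finset.le_sup (f := NA) (Finset.mem_univ t0)
        omega
      have hfin := hNA t0 N hle (fun j => l (t0.succAbove j)) (fun j => hl _) hrest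
      rw [pt2_succAbove _ g l t0]
      have hfirst : |(if g t0 then (0 : ℝ) else (c t0 : ℝ) / 2 ^ l t0)| ≤
          (2 : ℝ) ^ (-C2 * N) := by
        rcases Bool.eq_false_or_eq_true (g t0) with h1 | h1
        · rw [h1]
          simp only [if_true, abs_zero]
          exact hp2.le
        · rw [h1] at hterm ⊢
          simp only [gb, Bool.false_eq_true, if_false, Nat.cast_ofNat] at hterm ⊢
          exact hterm.trans h32
      have h3 := abs_add_le (if g t0 then (0 : ℝ) else (c t0 : ℝ) / 2 ^ l t0)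
        (pt2 (fun j => (c (t0.succAbove j) : ℝ)) (fun j => g (t0.succAbove j))
          (fun j => l (t0.succAbove j)))
      have h4 : KA t0 * (2 : ℝ) ^ (-C2 * N) ≤ |KA t0| * (2 : ℝ) ^ (-C2 * N) :=
        mul_le_mul_of_nonneg_right (le_abs_self _) hp2.le
      have h5 : |KA t0| + 1 ≤ ∑ t0, (|KA t0| + 1) :=
        Finset.single_le_sum (f := fun t => |KA t| + 1) (fun t _ => by positivity)
          (Finset.mem_univ t0)
      calc _ ≤ (|KA t0| + 1) * (2 : ℝ) ^ (-C2 * N) := by linarith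
        _ ≤ _ := mul_le_mul_of_nonneg_right (by linarith) hp2.le
    · push Not at hcase
      have hA0 : (0 : ℝ) < (gb (g 0) : ℝ) ^ l 0 := pow_pos (gb_pos _) _
      have hc0 : c 0 ≠ 0 := by
        intro h0
        have h1 := hcase 0
        rw [h0, Rat.cast_zero, abs_zero, zero_div] at h1
        linarith
      have hc0R : (c 0 : ℝ) ≠ 0 := by exact_mod_cast hc0
      have hbd : |((1 : ℤ) : ℝ) - ∑ i : Fin r, ((-c i.succ / c 0 : ℚ) : ℝ) *
          ((2 : ℝ) ^ ((if g 0 then (0 : ℤ) else (l 0 : ℤ)) -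
            (if g i.succ then (0 : ℤ) else (l i.succ : ℤ))) *
          (3 : ℝ) ^ ((if g 0 then (l 0 : ℤ) else (0 : ℤ)) -
            (if g i.succ then (l i.succ : ℤ) else (0 : ℤ))))| ≤ (2 : ℝ) ^ (-δ * N) := by
        obtain ⟨Z, hZ⟩ : ∃ Z : ℝ, Z = ((1 : ℤ) : ℝ) - ∑ i : Fin r, ((-c i.succ / c 0 : ℚ) : ℝ) *
          ((2 : ℝ) ^ ((if g 0 then (0 : ℤ) else (l 0 : ℤ)) -
            (if g i.succ then (0 : ℤ) else (l i.succ : ℤ))) *
          (3 : ℝ) ^ ((if g 0 then (l 0 : ℤ) else (0 : ℤ)) -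
            (if g i.succ then (l i.succ : ℤ) else (0 : ℤ)))) := ⟨_, rfl⟩
        rw [← hZ]
        have e1 : (c 0 : ℝ) / (gb (g 0) : ℝ) ^ l 0 * Z =
            ∑ t, (c t : ℝ) / (gb (g t) : ℝ) ^ l t := by
          rw [hZ, Fin.sum_univ_succ, mul_sub, Finset.mul_sum]
          have e2 : ∀ i : Fin r, (c 0 : ℝ) / (gb (g 0) : ℝ) ^ l 0 *
              (((-c i.succ / c 0 : ℚ) : ℝ) *
              ((2 : ℝ) ^ ((if g 0 then (0 : ℤ) else (l 0 : ℤ)) -
                (if g i.succ then (0 : ℤ) else (l i.succ : ℤ))) *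
              (3 : ℝ) ^ ((if g 0 then (l 0 : ℤ) else (0 : ℤ)) -
                (if g i.succ then (l i.succ : ℤ) else (0 : ℤ))))) =
              -((c i.succ : ℝ) / (gb (g i.succ) : ℝ) ^ l i.succ) := by
            intro i
            rw [key]
            push_cast
            have hi : (0 : ℝ) < (gb (g i.succ) : ℝ) ^ l i.succ := pow_pos (gb_pos _) _
            field_simp
          rw [Finset.sum_congr rfl fun i _ => e2 i, Finset.sum_neg_distrib]
          push_cast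
          ring
        have h1 : |Z| * (2 : ℝ) ^ (-C3 * N) ≤ (2 : ℝ) ^ (-δ * N) * (2 : ℝ) ^ (-C3 * N) := by
          have h2 : |Z| * (2 : ℝ) ^ (-C3 * N) ≤ |Z| * (|(c 0 : ℝ)| / (gb (g 0) : ℝ) ^ l 0) :=
            mul_le_mul_of_nonneg_left (hcase 0).le (abs_nonneg _)
          have h3 : |Z| * (|(c 0 : ℝ)| / (gb (g 0) : ℝ) ^ l 0) =
              |∑ t, (c t : ℝ) / (gb (g t) : ℝ) ^ l t| := by
            rw [← e1, abs_mul, abs_div, abs_of_pos hA0]
            ring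
          have h4 : |K| * (2 : ℝ) ^ (-C1 * N) ≤ (2 : ℝ) ^ (δ * N) * (2 : ℝ) ^ (-C1 * N) :=
            mul_le_mul_of_nonneg_right (hNK N (by omega)) hp1.le
          have h5 : (2 : ℝ) ^ (δ * N) * (2 : ℝ) ^ (-C1 * N) =
              (2 : ℝ) ^ (-δ * N) * (2 : ℝ) ^ (-C3 * N) := by
            rw [← Real.rpow_add (by norm_num), ← Real.rpow_add (by norm_num)]
            congr 1
            rw [hδ]
            ring
          calc _ ≤ _ := h2
            _ = _ := h3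
            _ ≤ _ := hS'
            _ ≤ _ := h4
            _ = _ := h5
        exact le_of_mul_le_mul_right h1 hp3
      have hHN : ∀ t, (l t : ℤ) ≤ (H : ℤ) * (N : ℤ) := fun t => by
        exact_mod_cast (hl t).2
      have hl0 : ∀ t, (0 : ℤ) ≤ (l t : ℤ) := fun t => Int.natCast_nonneg _
      have hHN0 : (0 : ℤ) ≤ (H : ℤ) * (N : ℤ) := by positivity
      obtain ⟨u, huF, hrel⟩ := hF N (by omega)
        (fun i => (if g 0 then (0 : ℤ) else (l 0 : ℤ)) -
          (if g i.succ then (0 : ℤ) else (l i.succ : ℤ)))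
        (fun i => (if g 0 then (l 0 : ℤ) else (0 : ℤ)) -
          (if g i.succ then (l i.succ : ℤ) else (0 : ℤ))) 1
        (fun i => by
          have a1 := hHN 0
          have a2 := hHN i.succ
          have a3 := hl0 0
          have a4 := hl0 i.succ
          push_cast
          constructor
          · rw [abs_le]
            constructor <;> split_ifs <;> linarith
          · rw [abs_le]
            constructor <;> split_ifs <;> linarith) hbd
      have hle : NB u ≤ N := by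
        have := Finset.le_sup (f := NB) huF
        omega
      have hfin := hNB u (hF0 u huF) N hle l hl (relX u g l hrel) hS
      have h4 : KB u * (2 : ℝ) ^ (-C2 * N) ≤ |KB u| * (2 : ℝ) ^ (-C2 * N) :=
        mul_le_mul_of_nonneg_right (le_abs_self _) hp2.le
      have h5 : |KB u| ≤ ∑ u ∈ F, |KB u| :=
        Finset.single_le_sum (f := fun t => |KB t|) (fun t _ => abs_nonneg _) huF
      calc _ ≤ _ := hfin
        _ ≤ _ := h4
        _ ≤ _ := mul_le_mul_of_nonneg_right (by linarith) hp2.le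

end Pool.Agent.Helper79.Rg
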